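import Pool.Agent.R497.TD.Defs
import Pool.Agent.R497.Er.Susp

/-!
Project TM (helper497, hard problem MP_4d8f14_an): the version of project TD for arbitrary invertible MAPS `T_j` at the
times `⌊a P_j(n)⌋`, one generic real number `a`. Statements; proofs in NOTES.md.
-/

set_option autoImplicit false

namespace Pool.Agent.R497.TM

open MeasureTheory Filter Finset
open Pool.Agent.Y957.MC (IsFlow flowInv smo)
open Pool.Agent.R497.Er (zp sus)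

universe u

/-- Lebesgue measure on `[0, 1)` times `μ` -/
noncomputable def nu {X : Type u} [MeasurableSpace X] (μ : Measure X) : Measure (ℝ × X) :=
  (volume.restrict (Set.Ico (0 : ℝ) 1)).prod μ

/-- (SFL) the suspension is a flow -/
def S_SFL : Prop := ∀ (X : Type u) [MeasurableSpace X] (μ : Measure X) [IsProbabilityMeasure μ] (T : X ≃ᵐ X),
    MeasurePreserving T μ μ → IsProbabilityMeasure (nu μ) ∧ IsFlow (nu μ) (sus T)

/-- (SCE) the conditional expectation on the invariant sets of the suspension -/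
def S_SCE : Prop := ∀ (X : Type u) [MeasurableSpace X] (μ : Measure X) [IsProbabilityMeasure μ] (T : X ≃ᵐ X)
    (f : X → ℂ), MeasurePreserving T μ μ → AEStronglyMeasurable f μ → (∃ C : ℝ, ∀ᵐ x ∂μ, ‖f x‖ ≤ C) →
    ((nu μ)[fun p : ℝ × X => f p.2 | flowInv (sus T)]) =ᵐ[nu μ] fun p => (μ[f | MeasurableSpace.invariants T]) p.2

/-- (EQD) the fractional parts of `a P(n)` are rarely close to 1 -/
def S_EQD : Prop := ∀ P : Polynomial ℝ, 0 < P.natDegree → ∀ᵐ a : ℝ, ∀ s : ℝ, 0 < s → ∀ᶠ N : ℕ in atTop,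
    (1 / (N : ℝ)) * (((Icc 1 N).filter fun n : ℕ => 1 - s ≤ Int.fract (a * P.eval (n : ℝ))).card : ℝ) ≤ 5 * s

/-- (TR) from almost every height to height zero -/
def S_TR : Prop := ∀ (X : Type u) [MeasurableSpace X] (μ : Measure X) [IsProbabilityMeasure μ] (r : ℕ)
    (P : Fin r → Polynomial ℝ) (Φ : ℕ → X → (Fin r → ℤ) → ℂ) (C : ℝ), (∀ j, 0 < (P j).natDegree) →
    (∀ᵐ x ∂μ, ∀ n k, ‖Φ n x k‖ ≤ C) →
    (∀ᵐ a : ℝ, ∀ᵐ p ∂(nu μ), Tendsto (fun N : ℕ => (1 / (N : ℂ)) * ∑ n ∈ Icc 1 N,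
      Φ n p.2 fun j => ⌊Int.fract p.1 + a * (P j).eval (n : ℝ)⌋) atTop (nhds 0)) →
    ∀ᵐ a : ℝ, ∀ᵐ x ∂μ, Tendsto (fun N : ℕ => (1 / (N : ℂ)) * ∑ n ∈ Icc 1 N,
      Φ n x fun j => ⌊a * (P j).eval (n : ℝ)⌋) atTop (nhds 0)

/-- (MFIN) maps: all degrees distinct -/
def S_MFIN : Prop := ∀ (X : Type u) [MeasurableSpace X] (μ : Measure X) [IsProbabilityMeasure μ] (r : ℕ)
    (T : Fin r → X ≃ᵐ X) (f : Fin r → X → ℂ) (P : Fin r → Polynomial ℝ) (W : ℕ → X → ℂ),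
    (∀ j, MeasurePreserving (T j) μ μ) → (∀ j, AEStronglyMeasurable (f j) μ) →
    (∀ j, ∃ C : ℝ, ∀ᵐ x ∂μ, ‖f j x‖ ≤ C) → (∀ j, 0 < (P j).natDegree) →
    (Function.Injective fun j => (P j).natDegree) → (∀ n, AEStronglyMeasurable (W n) μ) →
    (∃ C : ℝ, ∀ n, ∀ᵐ x ∂μ, ‖W n x‖ ≤ C) → ∀ᵐ a : ℝ, ∀ᵐ x ∂μ,
      Tendsto (fun N : ℕ => (1 / (N : ℂ)) * ∑ n ∈ Icc 1 N, W n x *
        (∏ j, f j (zp (T j) ⌊a * (P j).eval (n : ℝ)⌋ x) - ∏ j, (μ[f j | MeasurableSpace.invariants (T j)]) x))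
        atTop (nhds 0)

/-- (MTOP) maps: the factor of highest degree decouples -/
def S_MTOP : Prop := ∀ (X : Type u) [MeasurableSpace X] (μ : Measure X) [IsProbabilityMeasure μ] (r : ℕ)
    (T : Fin r → X ≃ᵐ X) (f : Fin r → X → ℂ) (P : Fin r → Polynomial ℝ) (S : X ≃ᵐ X) (g : X → ℂ)
    (Q : Polynomial ℝ) (W : ℕ → X → ℂ), (∀ j, MeasurePreserving (T j) μ μ) → (∀ j, AEStronglyMeasurable (f j) μ) →
    (∀ j, ∃ C : ℝ, ∀ᵐ x ∂μ, ‖f j x‖ ≤ C) → (∀ j, 0 < (P j).natDegree) → MeasurePreserving S μ μ →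
    AEStronglyMeasurable g μ → (∃ C : ℝ, ∀ᵐ x ∂μ, ‖g x‖ ≤ C) → 0 < Q.natDegree →
    (∀ j, (P j).natDegree < Q.natDegree) → (∀ n, AEStronglyMeasurable (W n) μ) →
    (∃ C : ℝ, ∀ n, ∀ᵐ x ∂μ, ‖W n x‖ ≤ C) → ∀ᵐ a : ℝ, ∀ᵐ x ∂μ,
      Tendsto (fun N : ℕ => (1 / (N : ℂ)) * ∑ n ∈ Icc 1 N,
        (W n x * ∏ j, f j (zp (T j) ⌊a * (P j).eval (n : ℝ)⌋ x)) *
          (g (zp S ⌊a * Q.eval (n : ℝ)⌋ x) - (μ[g | MeasurableSpace.invariants S]) x)) atTop (nhds 0)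

end Pool.Agent.R497.TM
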