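import Pool.Agent.R497.TM.Defs
import Pool.Agent.R497.TD.Main

set_option autoImplicit false

/-! Two-sided averages for maps. -/

namespace Pool.Agent.R497.TM

open MeasureTheory Filter Finset
open Pool.Agent.R497.Er (zp)
open Pool.Agent.R497.TD (two_sided)

universe u

lemma deg_neg (P : Polynomial ℝ) : (P.comp (-Polynomial.X)).natDegree = P.natDegree := by
  rw [Polynomial.natDegree_comp, Polynomial.natDegree_neg, Polynomial.natDegree_X, mul_one]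

lemma eval_neg' (P : Polynomial ℝ) (n : ℕ) : (P.comp (-Polynomial.X)).eval (n : ℝ) = P.eval (((-(n : ℤ) : ℤ)) : ℝ) := by
  simp only [Polynomial.eval_comp, Polynomial.eval_neg, Polynomial.eval_X]
  push_cast
  rfl

/-- distinct degrees, two-sided averages with weights -/
theorem mfin_two (h : S_MFIN.{u}) {X : Type u} [MeasurableSpace X] {μ : Measure X} [IsProbabilityMeasure μ] {r : ℕ}
    {T : Fin r → X ≃ᵐ X} {f : Fin r → X → ℂ} {P : Fin r → Polynomial ℝ} (hT : ∀ j, MeasurePreserving (T j) μ μ)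
    (hf : ∀ j, AEStronglyMeasurable (f j) μ) (hfb : ∀ j, ∃ C : ℝ, ∀ᵐ x ∂μ, ‖f j x‖ ≤ C)
    (hP : ∀ j, 0 < (P j).natDegree) (hinj : Function.Injective fun j => (P j).natDegree) {W : ℤ → X → ℂ}
    (hW : ∀ n, AEStronglyMeasurable (W n) μ) (hWb : ∃ C : ℝ, ∀ n, ∀ᵐ x ∂μ, ‖W n x‖ ≤ C) : ∀ᵐ a : ℝ, ∀ᵐ x ∂μ,
      Tendsto (fun N : ℕ => (1 / (2 * (N : ℂ) + 1)) * ∑ n ∈ Icc (-(N : ℤ)) N,
        W n x * (∏ j, f j (zp (T j) ⌊a * (P j).eval (n : ℝ)⌋ x) -
          ∏ j, (μ[f j | MeasurableSpace.invariants (T j)]) x)) atTop (nhds 0) := by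
  obtain ⟨C, hC⟩ := hWb
  have h1 := h X μ r T f P (fun n => W (n : ℤ)) hT hf hfb hP hinj (fun n => hW _) ⟨C, fun n => hC _⟩
  have h2 := h X μ r T f (fun j => (P j).comp (-Polynomial.X)) (fun n => W (-(n : ℤ))) hT hf hfb
    (fun j => by rw [deg_neg]; exact hP j) (fun i j hij => hinj (by simpa only [deg_neg] using hij)) (fun n => hW _)
    ⟨C, fun n => hC _⟩
  filter_upwards [h1, h2] with a ha1 ha2
  filter_upwards [ha1, ha2] with x hx1 hx2
  refine two_sided ?_ ?_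
  · refine hx1.congr fun N => ?_
    congr 1
  · refine hx2.congr fun N => ?_
    congr 1
    refine sum_congr rfl fun n _ => ?_
    simp only [eval_neg']

/-- the factor of highest degree decouples, two-sided averages -/
theorem mtop_two (h : S_MTOP.{u}) {X : Type u} [MeasurableSpace X] {μ : Measure X} [IsProbabilityMeasure μ] {r : ℕ}
    {T : Fin r → X ≃ᵐ X} {f : Fin r → X → ℂ} {P : Fin r → Polynomial ℝ} {S : X ≃ᵐ X} {g : X → ℂ} {Q : Polynomial ℝ}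
    (hT : ∀ j, MeasurePreserving (T j) μ μ)
    (hf : ∀ j, AEStronglyMeasurable (f j) μ) (hfb : ∀ j, ∃ C : ℝ, ∀ᵐ x ∂μ, ‖f j x‖ ≤ C)
    (hP : ∀ j, 0 < (P j).natDegree) (hS : MeasurePreserving S μ μ) (hg : AEStronglyMeasurable g μ)
    (hgb : ∃ C : ℝ, ∀ᵐ x ∂μ, ‖g x‖ ≤ C) (hQ : 0 < Q.natDegree) (hPQ : ∀ j, (P j).natDegree < Q.natDegree)
    {W : ℤ → X → ℂ} (hW : ∀ n, AEStronglyMeasurable (W n) μ) (hWb : ∃ C : ℝ, ∀ n, ∀ᵐ x ∂μ, ‖W n x‖ ≤ C) :
    ∀ᵐ a : ℝ, ∀ᵐ x ∂μ,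
      Tendsto (fun N : ℕ => (1 / (2 * (N : ℂ) + 1)) * ∑ n ∈ Icc (-(N : ℤ)) N,
        (W n x * ∏ j, f j (zp (T j) ⌊a * (P j).eval (n : ℝ)⌋ x)) *
          (g (zp S ⌊a * Q.eval (n : ℝ)⌋ x) - (μ[g | MeasurableSpace.invariants S]) x)) atTop (nhds 0) := by
  obtain ⟨C, hC⟩ := hWb
  have h1 := h X μ r T f P S g Q (fun n => W (n : ℤ)) hT hf hfb hP hS hg hgb hQ hPQ (fun n => hW _) ⟨C, fun n => hC _⟩
  have h2 := h X μ r T f (fun j => (P j).comp (-Polynomial.X)) S g (Q.comp (-Polynomial.X)) (fun n => W (-(n : ℤ)))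
    hT hf hfb (fun j => by rw [deg_neg]; exact hP j) hS hg hgb (by rw [deg_neg]; exact hQ)
    (fun j => by rw [deg_neg, deg_neg]; exact hPQ j) (fun n => hW _) ⟨C, fun n => hC _⟩
  filter_upwards [h1, h2] with a ha1 ha2
  filter_upwards [ha1, ha2] with x hx1 hx2
  refine two_sided ?_ ?_
  · refine hx1.congr fun N => ?_
    congr 1
  · refine hx2.congr fun N => ?_
    congr 1
    refine sum_congr rfl fun n _ => ?_
    simp only [eval_neg']

end Pool.Agent.R497.TM
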