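import Pool.Agent.R497.TM.Defs

set_option autoImplicit false

namespace Pool.Agent.R497.TM

open MeasureTheory Filter Finset
open Pool.Agent.Y957.MC (IsFlow flowInv smo)
open Pool.Agent.R497.Er (zp sus sus_meas sus_zero sus_add sus_mp)

universe u

theorem t_SFL : S_SFL.{u} := by
  intro X _ μ _ T hT
  refine ⟨by unfold nu; infer_instance, ?_, sus_zero T, fun s t x => sus_add T s t x, fun t => sus_mp T hT t⟩
  exact sus_meas T

end Pool.Agent.R497.TM
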